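import Mathlib
import Pool.Agent.H60.Hess3

namespace Pool.Agent.Results.MP_44891f_nt.Finite

open Pool.Agent.H60.HessD Pool.Agent.H60.Hess

/-- the matrix `H_Ω^v(m,n)` -/
def Hm (a11 a21 a12 a22 a32 a13 a23 a33 m n : ℤ) : Matrix (Fin 3) (Fin 3) ℤ :=
  !![a11, a12, a11 * m + a12 * n + a13; a21, a22, a21 * m + a22 * n + a23; 0, a32, a32 * n + a33]

theorem result (a11 a21 a12 a22 a32 a13 a23 a33 : ℤ) (h21 : 1 ≤ a21) (h32 : 1 ≤ a32)
    (hdet : (!![a11, a12, a13; a21, a22, a23; 0, a32, a33] : Matrix (Fin 3) (Fin 3) ℤ).det = 1) :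
    {A : Matrix (Fin 3) (Fin 3) ℤ | (∃ m n : ℤ, A = Hm a11 a21 a12 a22 a32 a13 a23 a33 m n) ∧
      NRS A ∧ ¬ Reduced A}.Finite := by
  obtain ⟨B, hB⟩ := bound2 (a21 * a32) (by positivity)
  let g : ℤ × ℤ → ℤ × ℤ := fun q => (tr a11 a22 (a32 * q.2 + a33),
    mb a11 a21 a12 a22 a32 (a21 * q.1 + a22 * q.2 + a23) (a32 * q.2 + a33))
  have hg : Function.Injective g := by
    rintro ⟨m, n⟩ ⟨m', n'⟩ h
    simp only [g, Prod.mk.injEq, tr, mb] at h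
    obtain ⟨h1, h2⟩ := h
    have e1 : n = n' := mul_left_cancel₀ (show a32 ≠ 0 by omega) (by linarith)
    subst e1
    have e2 : m = m' := mul_left_cancel₀ (show a21 * a32 ≠ 0 by positivity) (by linarith)
    rw [e2]
  have hfin : (g ⁻¹' (Set.Icc (-B) B ×ˢ Set.Icc (-B) B)).Finite :=
    ((Set.finite_Icc _ _).prod (Set.finite_Icc _ _)).preimage hg.injOn
  refine (hfin.image (fun q => Hm a11 a21 a12 a22 a32 a13 a23 a33 q.1 q.2)).subset ?_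
  rintro A ⟨⟨m, n, rfl⟩, h1, h2⟩
  refine ⟨(m, n), ?_, rfl⟩
  have hd : dt a11 a21 a12 a22 a32 (a11 * m + a12 * n + a13) (a21 * m + a22 * n + a23)
      (a32 * n + a33) = 1 := by
    rw [Matrix.det_fin_three] at hdet
    simp at hdet
    unfold dt
    linear_combination hdet
  obtain ⟨r, s, p, hH⟩ := H_of_NRS _ _ _ _ _ _ _ _ hd h1
  obtain ⟨x, y, z, hx, h3, h4⟩ := small_elt _ _ _ _ _ _ _ _ h21 h32 hd h2
  obtain ⟨h5, h6⟩ := hB _ _ r s p _ hH (lat _ _ _ _ _ _ _ _ (by omega) hd) x y z hx h3 h4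
  exact ⟨abs_le.1 h5, abs_le.1 h6⟩

end Pool.Agent.Results.MP_44891f_nt.Finite
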